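import Pool.Agent.H84.El

namespace Pool.Agent.Results.MP_177a3e_lc.No

open Pool.Agent.H84.ElDefs

theorem result : (∃ T, Kurepa T ∧ Image (Body T)) → ∃ S, Kurepa S ∧ Large S ∧ Image (Body S) :=
  fun ⟨_, a, b⟩ => Pool.Agent.H84.El.main a b

end Pool.Agent.Results.MP_177a3e_lc.No
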